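import Pool.Agent.H70.FMS.Loc

/-!
# Opposite vertices of base polyhedra with vertices in `{0, 1, -1}^n`: `min (f X) (f Xᶜ)` submodular

`base f` is the base polyhedron of `f`.
`Opposite f`: it has a vertex `v` such that `-v` is a vertex.
`Twins f c`: exchanging two elements of one class of `c : V → ι` does not change `f`.
`Bal f c x`: `x ∈ base f` has coordinates `0, 1, -1` and sum zero over every class.
`Block f x S T`: `S ⊂ T` are tight for `x` (`x S = f S`, `x T = f T`), no set strictly between is.
`minor f S T`: the function `Y ↦ f (S ∪ Y) - f S` on the subsets `Y` of the ground set `T \ S`.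
-/

set_option autoImplicit false

open Finset

namespace Pool.Agent.Results.MP_f5df30_co.MinSubmodular

open Pool.Agent.H54.Frank Pool.Agent.H56.FT Pool.Agent.H70.FMS

theorem result {V : Type} [Fintype V] [DecidableEq V] (f : Finset V → ℝ)
    (hf : Submodular f) (h0 : f ∅ = 0)
    (hv : ∀ v ∈ Set.extremePoints ℝ (base f), ∀ i, v i = 0 ∨ v i = 1 ∨ v i = -1)
    (hz : (0 : V → ℝ) ∈ base f) :
    -- (1) the global statement
    ((∀ X Y : Finset V, min (f (X ∪ Y)) (f (X ∪ Y)ᶜ) + min (f (X ∩ Y)) (f (X ∩ Y)ᶜ) ≤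
        min (f X) (f Xᶜ) + min (f Y) (f Yᶜ)) →
      ∃ v ∈ Set.extremePoints ℝ (base f), -v ∈ Set.extremePoints ℝ (base f) ∧
        ∀ x ∈ base f, -x ∈ base f → (∀ i, ∃ n : ℤ, x i = n) →
          #(Finset.univ.filter fun i => x i ≠ 0) ≤ #(Finset.univ.filter fun i => v i ≠ 0)) ∧
    -- (2) the local statement, with classes of twins
    (∀ (ι : Type) [DecidableEq ι] (c : V → ι), Twins f c →
      (∀ (x : V → ℝ) (S T : Finset V), Bal f c x → Block f x S T → (∀ i ∈ T \ S, x i = 0) →
          Set.InjOn c (T \ S : Finset V) →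
          (∀ i ∈ T \ S, Odd #(Finset.univ.filter fun j => c j = c i)) →
          (∀ X Y : Finset {i // i ∈ T \ S},
            min (minor f S T (X ∪ Y)) (minor f S T (X ∪ Y)ᶜ) +
              min (minor f S T (X ∩ Y)) (minor f S T (X ∩ Y)ᶜ) ≤
            min (minor f S T X) (minor f S T Xᶜ) + min (minor f S T Y) (minor f S T Yᶜ)) ∨
          Opposite (minor f S T)) →
        Opposite f) := by
  have h := data_of hf h0 hv hz
  exact ⟨fun hm => max_support h hm, fun ι _ c hc H => opposite_of_opp h (opp_of_local h hc H)⟩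

end Pool.Agent.Results.MP_f5df30_co.MinSubmodular
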