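import Pool.Agent.H12.SBO.Diam

/-!
Opposite vertices of differences of two matroid base polytopes, II.

For matroids `M₁`, `M₂` on the finite set `V` with rank functions `r₁`, `r₂` put
`dif M₁ M₂ X = r₁ X + r₂ (V \ X) - r₂ V`; if `0` is a point of its base polyhedron
`Base (dif M₁ M₂)`, then this polyhedron is the difference of the base polytopes of `M₁` and `M₂`.
-/

namespace Pool.Agent.Results.MP_f5df30_co.PartitionMatroid

open H31.Frank H12.SBO

variable {V : Type*} [Fintype V] [DecidableEq V]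

/-- `M` is a direct sum of uniform matroids: there are a partition of `V` into the sets
`V_i = {v | b v = i}` and numbers `c i` such that the bases of `M` are the sets having exactly `c i`
elements in `V_i` for every `i`. -/
def SumUnif (M : Matroid V) : Prop :=
  ∃ (ι : Type) (_ : DecidableEq ι) (b : V → ι) (c : ι → ℕ),
    ∀ T : Finset V, M.IsBase (T : Set V) ↔ ∀ i, (T.filter fun v => b v = i).card = c i

/-- `P` is a base of both matroids. -/
def Common (M₁ M₂ : Matroid V) (P : Finset V) : Prop :=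
  M₁.IsBase (P : Set V) ∧ M₂.IsBase (P : Set V)

/-- The first part says that `dif M₁ M₂` is of the kind considered by Frank. The second part is
Frank's statement in the strong form that opposite vertices `χ_P - χ_Q`, `χ_Q - χ_P` exist for two
common bases `P`, `Q`, in the following cases: one of the two matroids is a direct sum of uniform
matroids; two common bases are disjoint; two common bases cover `V`; any two common bases differ by
at most one exchange; the rank is at most two; the rank is at least `|V| - 2`. The third part says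
that in the first case all pairs of common bases with minimal intersection are of this kind. -/
theorem result (M₁ M₂ : Matroid V)
    (hE₁ : M₁.E = Set.univ) (hE₂ : M₂.E = Set.univ) (h0 : (0 : V → ℝ) ∈ Base (dif M₁ M₂)) :
    (dif M₁ M₂ ∅ = 0 ∧
      (∀ X Y, dif M₁ M₂ (X ∪ Y) + dif M₁ M₂ (X ∩ Y) ≤ dif M₁ M₂ X + dif M₁ M₂ Y) ∧
      ∀ v ∈ Set.extremePoints ℝ (Base (dif M₁ M₂)), ∀ i, v i = 0 ∨ v i = 1 ∨ v i = -1) ∧
    ((SumUnif M₁ ∨ SumUnif M₂ ∨
        (∃ P Q, Common M₁ M₂ P ∧ Common M₁ M₂ Q ∧ (Disjoint P Q ∨ P ∪ Q = Finset.univ)) ∨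
        (∀ P Q, Common M₁ M₂ P → Common M₁ M₂ Q → (P \ Q).card ≤ 1) ∨
        (∃ P, Common M₁ M₂ P ∧ (P.card ≤ 2 ∨ Fintype.card V ≤ P.card + 2))) →
      ∃ P Q, Common M₁ M₂ P ∧ Common M₁ M₂ Q ∧
        vec P Q ∈ Set.extremePoints ℝ (Base (dif M₁ M₂)) ∧
        -vec P Q ∈ Set.extremePoints ℝ (Base (dif M₁ M₂))) ∧
    (SumUnif M₁ ∨ SumUnif M₂ → ∀ P Q, Common M₁ M₂ P → Common M₁ M₂ Q →
      (∀ P' Q', Common M₁ M₂ P' → Common M₁ M₂ Q' → (P ∩ Q).card ≤ (P' ∩ Q').card) →
      vec P Q ∈ Set.extremePoints ℝ (Base (dif M₁ M₂)) ∧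
      -vec P Q ∈ Set.extremePoints ℝ (Base (dif M₁ M₂))) := by
  classical
  have hr := rank_eq M₁ M₂ h0
  have hcb : ∀ B, Common M₁ M₂ B ↔ CB M₁ M₂ B := fun B => by
    unfold CB Common; rw [isB_iff M₁ hE₁, isB_iff M₂ hE₂]
  have conv : ∀ P Q : Finset V, Good M₁ M₂ (P \ Q) (Q \ P) →
      vec P Q ∈ Set.extremePoints ℝ (Base (dif M₁ M₂)) ∧
      -vec P Q ∈ Set.extremePoints ℝ (Base (dif M₁ M₂)) := by
    intro P Q h3
    have e : vec (P \ Q) (Q \ P) = vec P Q := by
      funext i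
      unfold vec
      by_cases hP : i ∈ P <;> by_cases hQ : i ∈ Q <;> simp [hP, hQ]
    have h4 := h3.1
    have h5 := h3.2
    rw [← neg_vec, e] at h5
    rw [e] at h4
    exact ⟨h4, h5⟩
  have third : SumUnif M₁ ∨ SumUnif M₂ → ∀ P Q, CB M₁ M₂ P → CB M₁ M₂ Q →
      (∀ P' Q', CB M₁ M₂ P' → CB M₁ M₂ Q' → (P ∩ Q).card ≤ (P' ∩ Q').card) →
      vec P Q ∈ Set.extremePoints ℝ (Base (dif M₁ M₂)) ∧
      -vec P Q ∈ Set.extremePoints ℝ (Base (dif M₁ M₂)) := by
    intro h P Q hP hQ hmin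
    apply conv
    rcases h with ⟨ι, _, b, c, hM⟩ | ⟨ι, _, b, c, hM⟩
    · exact good_min' (b := b) (c := c) hE₁ hE₂ hr (Or.inr hM) hP hQ (fun B hB => hmin B Q hB hQ)
        (fun B hB => hmin P B hP hB)
    · exact good_min' (b := b) (c := c) hE₁ hE₂ hr (Or.inl hM) hP hQ (fun B hB => hmin B Q hB hQ)
        (fun B hB => hmin P B hP hB)
  simp only [hcb]
  refine ⟨⟨dif_empty M₁ M₂, dif_sub M₁ M₂, fun v hv i => vert M₁ M₂ hr hv i⟩, ?_, third⟩
  obtain ⟨P₀, hP₀⟩ := exists_CB hr h0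
  intro h
  have h' : (SumUnif M₁ ∨ SumUnif M₂) ∨
      ((∀ P Q, CB M₁ M₂ P → CB M₁ M₂ Q → (P \ Q).card ≤ 1) ∨
      ∃ P Q, CB M₁ M₂ P ∧ CB M₁ M₂ Q ∧ (Disjoint P Q ∨ P ∪ Q = Finset.univ)) := by
    rcases h with h | h | h | h | ⟨B, hB, h⟩
    · exact Or.inl (Or.inl h)
    · exact Or.inl (Or.inr h)
    · exact Or.inr (Or.inr h)
    · exact Or.inr (Or.inl h)
    · right
      apply small_rank
      have h2 : (B.card : ℤ) = rk M₁ Finset.univ := by rw [← hB.1.1, hB.1.2]
      rcases h with h | h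
      · left; rw [← h2]; exact_mod_cast h
      · right; rw [← h2]; exact_mod_cast h
  rcases h' with h | h
  · -- a pair of common bases with minimal intersection
    obtain ⟨⟨P, Q⟩, hPQ, hmin⟩ := Finset.exists_min_image
      (Finset.univ.filter fun p : Finset V × Finset V => CB M₁ M₂ p.1 ∧ CB M₁ M₂ p.2)
      (fun p => (p.1 ∩ p.2).card) ⟨(P₀, P₀), by simpa using hP₀⟩
    rw [Finset.mem_filter] at hPQ
    refine ⟨P, Q, hPQ.2.1, hPQ.2.2, third h P Q hPQ.2.1 hPQ.2.2 fun P' Q' h1 h2 => ?_⟩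
    exact hmin (P', Q') (by simpa using ⟨h1, h2⟩)
  · obtain ⟨P, Q, h1, h2, h3⟩ := exists_good_cb hE₁ hE₂ hr hP₀ h
    exact ⟨P, Q, h1, h2, conv P Q h3⟩

end Pool.Agent.Results.MP_f5df30_co.PartitionMatroid
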