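import Pool.Agent.H12.SBO.Vert

/-!
Opposite vertices of differences of two matroid base polytopes.

For matroids `M₁`, `M₂` on the finite set `V` with rank functions `r₁`, `r₂` put
`dif M₁ M₂ X = r₁ X + r₂ (V \ X) - r₂ V`; if `0` is a point of its base polyhedron
`Base (dif M₁ M₂)`, then this polyhedron is the difference of the base polytopes of `M₁` and `M₂`.
-/

namespace Pool.Agent.Results.MP_f5df30_co.StronglyBaseOrderable

open H31.Frank H12.SBO

/-- The first part says that `dif M₁ M₂` is of the kind considered by Frank. The second part gives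
pairs with the packing property `Pack`: both matroids are strongly base orderable, or every base of
one of them is a base of the other one. The third part is Frank's statement for pairs with the
packing property: opposite vertices `v`, `-v` exist; every integral point `x` with `x` and `-x` in
the polyhedron has its support contained in the support of such a `v`; and `x`, `-x` are vertices
themselves if the support of `x` is maximal. -/
theorem result {V : Type*} [Fintype V] [DecidableEq V] (M₁ M₂ : Matroid V)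
    (hE₁ : M₁.E = Set.univ) (hE₂ : M₂.E = Set.univ) (h0 : (0 : V → ℝ) ∈ Base (dif M₁ M₂)) :
    (dif M₁ M₂ ∅ = 0 ∧
      (∀ X Y, dif M₁ M₂ (X ∪ Y) + dif M₁ M₂ (X ∩ Y) ≤ dif M₁ M₂ X + dif M₁ M₂ Y) ∧
      ∀ v ∈ Set.extremePoints ℝ (Base (dif M₁ M₂)), ∀ i, v i = 0 ∨ v i = 1 ∨ v i = -1) ∧
    ((H12.SBO.StronglyBaseOrderable M₁ ∧ H12.SBO.StronglyBaseOrderable M₂ ∨
        (∀ B, M₁.IsBase B → M₂.IsBase B) ∨ (∀ B, M₂.IsBase B → M₁.IsBase B)) →
      Pack M₁ M₂) ∧
    (Pack M₁ M₂ →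
      (∃ v ∈ Set.extremePoints ℝ (Base (dif M₁ M₂)),
        -v ∈ Set.extremePoints ℝ (Base (dif M₁ M₂))) ∧
      ∀ x : V → ℤ, K M₁ M₂ x →
        (∃ v : V → ℤ, (∀ i, x i ≠ 0 → v i ≠ 0) ∧
          (fun i => (v i : ℝ)) ∈ Set.extremePoints ℝ (Base (dif M₁ M₂)) ∧
          (fun i => -(v i : ℝ)) ∈ Set.extremePoints ℝ (Base (dif M₁ M₂))) ∧
        ((∀ y : V → ℤ, K M₁ M₂ y → (∀ i, x i ≠ 0 → y i ≠ 0) → ∀ i, y i ≠ 0 → x i ≠ 0) →
          (fun i => (x i : ℝ)) ∈ Set.extremePoints ℝ (Base (dif M₁ M₂)) ∧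
          (fun i => -(x i : ℝ)) ∈ Set.extremePoints ℝ (Base (dif M₁ M₂)))) := by
  have hr := rank_eq M₁ M₂ h0
  refine ⟨⟨dif_empty M₁ M₂, dif_sub M₁ M₂, fun v hv i => vert M₁ M₂ hr hv i⟩, ?_, fun hp => ⟨?_, ?_⟩⟩
  · rintro (⟨h1, h2⟩ | h1 | h1)
    · exact pack_of_sbo h1 h2
    · exact pack_of_subset h1
    · exact (pack_of_subset h1).symm
  · have hK : K M₁ M₂ 0 := by
      refine ⟨?_, ?_⟩
      · convert h0 using 1
        funext i; simp
      · convert h0 using 1
        funext i; simp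
    obtain ⟨v, _, h1, h2⟩ := exists_good M₁ M₂ hE₁ hE₂ hr hp _ 0 rfl hK
    exact ⟨_, h1, h2⟩
  · intro x hx
    exact ⟨exists_good M₁ M₂ hE₁ hE₂ hr hp _ x rfl hx, good_of_max M₁ M₂ hE₁ hE₂ hr hp x hx⟩

end Pool.Agent.Results.MP_f5df30_co.StronglyBaseOrderable
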