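import Pool.Agent.H56.FT.Good

/-!
# Opposite vertices of base polyhedra with vertices in `{0, 1, -1}^n`: twins

`base f` is the base polyhedron of `f`.
`Opposite f`: it has a vertex `v` such that `-v` is a vertex.
`FrankOn W`: the statement of the problem for all base polyhedra with ground set `W`.
`Twins f c`: exchanging two elements of one class of `c : V → ι` does not change `f`.
`oddC c`: the set of the classes of `c` with an odd number of elements.
`Bal f c x`: `x ∈ base f` has coordinates `0, 1, -1` and sum zero over every class.
`Block f x S T`: `S ⊂ T` are tight for `x` (`x S = f S`, `x T = f T`), no set strictly between is.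
`loc f S T X = f (S ∪ (X ∩ T)) - f S`; `minor f S T` is the same function on the subsets of the
ground set `T \ S`.
`Good g S T`: `T \ S` has at most six elements, or no `X` between `S` and `T` has `g > 2` together
with its complement `S ∪ (T \ X)`, or (ball) for some `k` one has `min k #(X \ S) #(T \ X) ≤ g X`
for all these `X` and none has `g > k` together with its complement, or (path) for some `k` some
point `(A, N)` of rank `k` (`Pt`, standing for `χ_A - χ_N`) is joined to `(N, A)` by moves (`Move`)
of one element of `A` or `N`.
-/

set_option autoImplicit false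

open Finset

namespace Pool.Agent.Results.MP_f5df30_co.TwinReduction

open Pool.Agent.H54.Frank Pool.Agent.H56.FT

theorem result {V : Type} [Fintype V] [DecidableEq V] (f : Finset V → ℝ)
    (hf : Submodular f) (h0 : f ∅ = 0)
    (hv : ∀ v ∈ Set.extremePoints ℝ (base f), ∀ i, v i = 0 ∨ v i = 1 ∨ v i = -1)
    (hz : (0 : V → ℝ) ∈ base f) :
    (∀ (ι : Type) [DecidableEq ι] (c : V → ι), Twins f c →
      -- (1) at most six odd classes
      (#(oddC c) ≤ 6 → Opposite f) ∧
      -- (2) at most one odd class: opposite vertices with all class sums zero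
      (#(oddC c) ≤ 1 → ∃ v ∈ Set.extremePoints ℝ (base f), -v ∈ Set.extremePoints ℝ (base f) ∧
        ∀ C : ι, ∑ i ∈ Finset.univ.filter (fun i => c i = C), v i = 0) ∧
      -- (3) reduction to as many elements as there are odd classes
      ((∀ (W : Type) [Fintype W] [DecidableEq W], Fintype.card W ≤ #(oddC c) → FrankOn W) →
        Opposite f) ∧
      -- (4) the general criterion, block by block
      ((∀ (x : V → ℝ) (S T : Finset V), Bal f c x → Block f x S T → (∀ i ∈ T \ S, x i = 0) →
          Set.InjOn c (T \ S : Finset V) →
          (∀ i ∈ T \ S, Odd #(Finset.univ.filter fun j => c j = c i)) →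
          Good (loc f S T) S T ∨ Opposite (minor f S T)) →
        Opposite f)) ∧
    -- (5) a minimal counterexample has no twins
    (∀ i j : V, i ≠ j → (∀ X : Finset V, f (X.image (Equiv.swap i j)) = f X) →
      (∀ (W : Type) [Fintype W] [DecidableEq W], Fintype.card W + 2 ≤ Fintype.card V →
        FrankOn W) → Opposite f) ∧
    -- (6) no subset sum takes both a value `≥ 3` and a value `≤ -3`
    ((∀ X : Finset V, f X ≤ 2 ∨ f Xᶜ ≤ 2) → Opposite f) ∧
    -- (7) the ball case
    (∀ k : ℕ, (∀ X : Finset V, ((min k (min #X #Xᶜ) : ℕ) : ℝ) ≤ f X) →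
      (∀ X : Finset V, f X ≤ k ∨ f Xᶜ ≤ k) → Opposite f) := by
  have h := data_of hf h0 hv hz
  refine ⟨fun ι _ c hc => ⟨fun h6 => opposite_of_opp h (opp_six_odd h hc h6), fun h1 => ?_,
    fun H => opposite_of_opp h (opp_of_frankOn h hc H),
    fun H => opposite_of_opp h (opp_of_good h hc H)⟩, fun i j hij htw H => ?_,
    fun H => opposite_two h H, fun k h1 h2 => opposite_ball h k h1 h2⟩
  · obtain ⟨x, h2, h3, h4⟩ := balanced_of_one h hc h1
    exact ⟨x, h2, h3, h4⟩
  · refine opposite_of_opp h (opp_of_frankOn h (twins_two htw) fun W _ _ hW => H W ?_)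
    have h2 := oddC_two hij
    omega

end Pool.Agent.Results.MP_f5df30_co.TwinReduction
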